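import Pool.Agent.helper91.MM.SpecB

set_option autoImplicit false

/-!
# Row PTB of MP_bfc607_gt: points of the second system
-/

namespace Pool.Agent.MM

open Pool.Agent.Scheepers Filter Topology Cardinal

/-- gluing patterns block by block -/
theorem PTB_glue (h1 : XBK_stmt) {S : Sys} (p : Cnd S) (J : ℕ) (s : ℕ → Bool) (u : ℕ → ℕ → Bool) :
    ∃ z : ℕ → Bool, (∀ e, e < p.a J → z e = s e) ∧
      ∀ j, J ≤ j → ∀ e, p.a j ≤ e → e < p.a (j + 1) → z e = u j e := by
  classical
  obtain ⟨hb, hu⟩ := h1 S p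
  have hex : ∀ e, ∃ j, p.a J ≤ e → (J ≤ j ∧ p.a j ≤ e ∧ e < p.a (j + 1)) := by
    intro e
    by_cases he : p.a J ≤ e
    · obtain ⟨j, hj⟩ := hb J e he
      exact ⟨j, fun _ => hj⟩
    · exact ⟨0, fun h => absurd h he⟩
  choose g hg using hex
  refine ⟨fun e => if e < p.a J then s e else u (g e) e, fun e he => by simp [he], ?_⟩
  intro j hj e he he'
  have hJe : p.a J ≤ e := (p.mono.monotone hj).trans he
  have h1 := hg e hJe
  have h2 : g e = j := hu _ _ e h1.2.1 h1.2.2 he he'
  simp [not_lt.2 hJe, h2]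

/-- a sequence of levels -/
theorem PTB_levels (L : ℕ → ℕ) : ∃ J : ℕ → ℕ, StrictMono J ∧ ∀ i, L (i + 1) ≤ J i := by
  refine ⟨fun i => (∑ k ∈ Finset.range (i + 1), L (k + 1)) + i, strictMono_nat_of_lt_succ ?_, ?_⟩
  · intro i
    have h3 : ∑ k ∈ Finset.range (i + 1 + 1), L (k + 1) =
        ∑ k ∈ Finset.range (i + 1), L (k + 1) + L (i + 1 + 1) :=
      Finset.sum_range_succ (fun k => L (k + 1)) (i + 1)
    show ∑ k ∈ Finset.range (i + 1), L (k + 1) + i <
      ∑ k ∈ Finset.range (i + 1 + 1), L (k + 1) + (i + 1)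
    omega
  · intro i
    have : L (i + 1) ≤ ∑ k ∈ Finset.range (i + 1), L (k + 1) :=
      Finset.single_le_sum (f := fun k => L (k + 1)) (fun _ _ => Nat.zero_le _)
        (Finset.mem_range.2 (Nat.lt_succ_self i))
    exact this.trans (Nat.le_add_right _ _)

theorem PTB_pos_le (e : ℕ) : (pos e).1 ≤ e := by
  unfold pos
  exact (Nat.unpair_left_le _).trans (Nat.unpair_left_le _)

theorem PTB (h1 : XBK_stmt) (h2 : BLD_stmt) : PTB_stmt := by
  classical
  intro S hV hP p
  constructor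
  · intro h
    choose L hL using p.large
    obtain ⟨J, hJm, hJL⟩ := PTB_levels L
    have hLg : ∀ i j, J i ≤ j → Lg S (i + 1) (p.A j) (p.a j) (p.a (j + 1)) := fun i j hij =>
      hL (i + 1) j ((hJL i).trans hij)
    have hexi : ∀ j, ∃ i, j < J (i + 1) := fun j =>
      ⟨j, lt_of_lt_of_le (Nat.lt_succ_self j) (hJm.id_le (j + 1))⟩
    let ii : ℕ → ℕ := fun j => Nat.find (hexi j)
    have hii1 : ∀ j, j < J (ii j + 1) := fun j => Nat.find_spec (hexi j)
    have hii2 : ∀ i j, J i ≤ j → i ≤ ii j := by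
      intro i j hij
      by_contra hc
      push Not at hc
      have : J (ii j + 1) ≤ J i := hJm.monotone hc
      have := hii1 j
      omega
    have hii3 : ∀ j, J 0 ≤ j → J (ii j) ≤ j := by
      intro j hj
      rcases Nat.eq_zero_or_pos (ii j) with h0 | h0
      · rw [h0]; exact hj
      · have h3 := Nat.find_min (hexi j) (m := ii j - 1) (Nat.sub_lt h0 Nat.one_pos)
        rw [Nat.sub_add_cancel h0] at h3
        exact not_lt.1 h3
    let nn : ℕ → ℕ := fun i => p.a (J i)
    have hnn : StrictMono nn := p.mono.comp hJm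
    let t : Set (ℕ × ℕ) := {w | ∃ i, w = (nn i, h (nn i))}
    let T : ℕ → Set (ℕ × ℕ) := fun j => {w | ∃ i, i ≤ ii j ∧ w = (nn i, h (nn i))}
    have hTt : ∀ j, T j ⊆ t := fun j w ⟨i, _, hw⟩ => ⟨i, hw⟩
    have hT : ∀ j, T j ∈ S.V (ii j + 1) := by
      intro j
      rw [hV]
      refine ⟨?_, ?_⟩
      · intro s hs
        have hsub : s ⊆ (Finset.range (ii j + 1)).image (fun i => (nn i, h (nn i))) := by
          intro w hw
          obtain ⟨i, hi, rfl⟩ := hs hw
          exact Finset.mem_image.2 ⟨i, Finset.mem_range.2 (Nat.lt_succ_of_le hi), rfl⟩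
        exact (Finset.card_le_card hsub).trans (Finset.card_image_le.trans
          (by rw [Finset.card_range]))
      · rintro n m m' ⟨i, _, hi⟩ ⟨i', _, hi'⟩
        have e1 := Prod.ext_iff.1 hi
        have e2 := Prod.ext_iff.1 hi'
        simp only at e1 e2
        rw [e1.2, e2.2, ← e1.1, ← e2.1]
    have hu : ∀ j, ∃ u : ℕ → Bool, J 0 ≤ j → (u ∈ p.A j ∧
        (∀ e, p.a j ≤ e → e < p.a (j + 1) → pos e ∈ T j → u e = false) ∧
        ((pos j).1 ≤ ii j + 1 → (pos j).2 ≤ ii j + 1 → pos j ∉ t →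
          ∃ e, p.a j ≤ e ∧ e < p.a (j + 1) ∧ pos e = pos j ∧ u e = true)) := by
      intro j
      by_cases hj : J 0 ≤ j
      · have hl := hLg (ii j) j (hii3 j hj)
        by_cases hM : (pos j).1 ≤ ii j + 1 ∧ (pos j).2 ≤ ii j + 1 ∧ pos j ∉ t
        · obtain ⟨u, hu1, hu2, hu3⟩ := hl (T j) (hT j) (pos j) hM.1 hM.2.1
            (fun hc => hM.2.2 (hTt j hc))
          exact ⟨u, fun _ => ⟨hu1, hu2, fun _ _ _ => hu3⟩⟩
        · obtain ⟨w, hw1, hw2, hw3⟩ := S.out _ (T j) (hT j)
          obtain ⟨u, hu1, hu2, -⟩ := hl (T j) (hT j) w hw1 hw2 hw3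
          exact ⟨u, fun _ => ⟨hu1, hu2, fun a b c => absurd ⟨a, b, c⟩ hM⟩⟩
      · exact ⟨fun _ => false, fun hc => absurd hc hj⟩
    choose u hu using hu
    obtain ⟨z, hz1, hz2⟩ := PTB_glue h1 p (J 0) (fun _ => false) u
    have hF : ∀ w, z ∈ F w → w ∈ t := by
      intro w hw
      by_contra hwt
      obtain ⟨j, hj1, hj2⟩ := exists_pos_ge w (J (max w.1 w.2))
      have hj0 : J 0 ≤ j := (hJm.monotone (Nat.zero_le _)).trans hj1
      have hi : max w.1 w.2 ≤ ii j := hii2 _ _ hj1
      obtain ⟨e, he1, he2, he3, he4⟩ := (hu j hj0).2.2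
        (by rw [hj2]; exact ((le_max_left _ _).trans hi).trans (Nat.le_succ _))
        (by rw [hj2]; exact ((le_max_right _ _).trans hi).trans (Nat.le_succ _))
        (by rw [hj2]; exact hwt)
      have h3 := hw e (by rw [he3, hj2])
      rw [hz2 j hj0 e he1 he2, he4] at h3
      exact Bool.noConfusion h3
    refine ⟨z, ⟨J 0, fun j hj => p.loc j (u j) z
      (fun e he he' => (hz2 j hj e he he').symm) (hu j hj).1⟩, ?_, ?_⟩
    · rw [hP]
      intro n m m' hm hm'
      obtain ⟨i, hi⟩ := hF _ hm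
      obtain ⟨i', hi'⟩ := hF _ hm'
      have e1 := Prod.ext_iff.1 hi
      have e2 := Prod.ext_iff.1 hi'
      simp only at e1 e2
      rw [e1.2, e2.2, ← e1.1, ← e2.1]
    · refine (Set.infinite_range_of_injective hnn.injective).mono ?_
      rintro _ ⟨i, rfl⟩
      intro e he
      have h3 : nn i ≤ e := by
        have := PTB_pos_le e
        rw [he] at this
        exact this
      obtain ⟨j, hj1, hj2, hj3⟩ := (h1 S p).1 (J i) e h3
      have hj0 : J 0 ≤ j := (hJm.monotone (Nat.zero_le _)).trans hj1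
      rw [hz2 j hj0 e hj2 hj3]
      refine (hu j hj0).2.1 e hj2 hj3 ?_
      rw [he]
      exact ⟨i, hii2 i j hj1, rfl⟩
  · intro w
    obtain ⟨J, hJ⟩ := p.large 1
    have hw1 : ({w} : Set (ℕ × ℕ)) ∈ S.V 1 := by
      rw [hV]
      refine ⟨?_, ?_⟩
      · intro s hs
        have : s ⊆ {w} := by
          intro y hy
          exact Finset.mem_singleton.2 (hs hy)
        exact (Finset.card_le_card this).trans (by rw [Finset.card_singleton])
      · intro n m m' hm hm'
        have e1 : (n, m) = w := hm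
        have e2 : (n, m') = w := hm'
        rw [← e2] at e1
        exact (Prod.ext_iff.1 e1).2
    obtain ⟨z, hz1, hz2⟩ := h2 S p 1 J hJ (fun _ => {w}) (fun _ _ => hw1) pos (fun _ => false)
    have hzw : ∀ w', z ∈ F w' ↔ w' = w := by
      intro w'
      constructor
      · intro hw'
        by_contra hne
        obtain ⟨J1, hJ1⟩ := p.large (max 1 (max w'.1 w'.2))
        obtain ⟨j, hj1, hj2⟩ := exists_pos_ge w' (max J J1)
        obtain ⟨e, he1, he2, he3, he4⟩ := (hz2 j ((le_max_left _ _).trans hj1)).2.2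
          (max 1 (max w'.1 w'.2)) (le_max_left _ _)
          (by rw [hj2]; exact (le_max_left _ _).trans (le_max_right _ _))
          (by rw [hj2]; exact (le_max_right _ _).trans (le_max_right _ _))
          (by rw [hj2]; exact hne) (hJ1 j ((le_max_right _ _).trans hj1))
        have h3 := hw' e (by rw [he3, hj2])
        rw [he4] at h3
        exact Bool.noConfusion h3
      · rintro rfl e he
        rcases lt_or_ge e (p.a J) with hlt | hge
        · exact hz1 e hlt
        · obtain ⟨j, hj1, hj2, hj3⟩ := (h1 S p).1 J e hge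
          exact (hz2 j hj1).2.1 e hj2 hj3 he
    refine ⟨z, ⟨J, fun j hj => (hz2 j hj).1⟩, ?_, hzw⟩
    rw [hP]
    intro n m m' hm hm'
    have e1 := (hzw _).1 hm
    have e2 := (hzw _).1 hm'
    rw [← e2] at e1
    exact (Prod.ext_iff.1 e1).2

end Pool.Agent.MM
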